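import Pool.Agent.Helper92.AG.Defs
import Pool.Agent.Helper92.LA.C2

/-!
# Project AG, block P: the phases `hom (ga H α)` of an oval whose affine curvature has no double zero
-/

open MeasureTheory Real Set Filter Topology

set_option autoImplicit false

namespace Pool.Agent.Helper92.AG

open Pool.Agent.Helper22.AE
open Pool.Agent.Helper22.AC (ga)
open Pool.Agent.Helper22.OV (oph oan gam qq sg sg_sq sg_abs qq_pos qq_le qq_sq per_deriv per_bdd per_min dshift dcomb rho_gam
  oph_contDiff oph_d2 oph_d3 oph_d4 qq_hasDerivAt oan_hasDerivAt)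
open Pool.Agent.Helper22.LP (hom nr tr wr nr_eq tr_angle)
open Pool.Agent.Helper92.LA (HL WL)
open Pool.Agent.Helper60.LT (sl Cv Hom)
open Pool.Agent.Helper3.AC (p2 p3 p4 be ka)

/-- the numerator of the affine curvature -/
noncomputable def aff (H : ℝ → ℝ) (t : ℝ) : ℝ := 9 * rho H t ^ 2 + 4 * deriv (rho H) t ^ 2 - 3 * rho H t * deriv (deriv (rho H)) t

/-! ## bounded Lipschitz functions -/

private def BL (K : ℝ) (f : ℝ → ℝ) : Prop := (∀ x, |f x| ≤ K) ∧ ∀ x y, |f x - f y| ≤ K * |x - y|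

private theorem BL.mono {K L : ℝ} {f : ℝ → ℝ} (h : BL K f) (hKL : K ≤ L) : BL L f :=
  ⟨fun x => (h.1 x).trans hKL, fun x y => (h.2 x y).trans (mul_le_mul_of_nonneg_right hKL (abs_nonneg _))⟩

private theorem BL.nonneg {K : ℝ} {f : ℝ → ℝ} (h : BL K f) : 0 ≤ K := (abs_nonneg _).trans (h.1 0)

private theorem BL.mul {K L : ℝ} {f g : ℝ → ℝ} (hf : BL K f) (hg : BL L g) : BL (2 * K * L) (fun x => f x * g x) := by
  have hK := hf.nonneg
  have hL := hg.nonneg
  have hKL := mul_nonneg hK hL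
  constructor
  · intro x
    simp only
    rw [abs_mul]
    have := mul_le_mul (hf.1 x) (hg.1 x) (abs_nonneg _) hK
    linarith
  · intro x y
    simp only
    have e : f x * g x - f y * g y = f x * (g x - g y) + g y * (f x - f y) := by ring
    rw [e]
    have h1 : |f x * (g x - g y)| ≤ K * (L * |x - y|) := by
      rw [abs_mul]
      exact mul_le_mul (hf.1 x) (hg.2 x y) (abs_nonneg _) hK
    have h2 : |g y * (f x - f y)| ≤ L * (K * |x - y|) := by
      rw [abs_mul]
      exact mul_le_mul (hg.1 y) (hf.2 x y) (abs_nonneg _) hL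
    have h3 := abs_add_le (f x * (g x - g y)) (g y * (f x - f y))
    nlinarith

private theorem BL.cmul {K : ℝ} {f : ℝ → ℝ} (hf : BL K f) {a : ℝ} (ha : 0 ≤ a) : BL (a * K) (fun x => a * f x) := by
  constructor
  · intro x
    simp only
    rw [abs_mul, abs_of_nonneg ha]
    exact mul_le_mul_of_nonneg_left (hf.1 x) ha
  · intro x y
    simp only
    have e : a * f x - a * f y = a * (f x - f y) := by ring
    rw [e, abs_mul, abs_of_nonneg ha]
    have := mul_le_mul_of_nonneg_left (hf.2 x y) ha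
    linarith

private theorem BL.add {K L : ℝ} {f g : ℝ → ℝ} (hf : BL K f) (hg : BL L g) : BL (K + L) (fun x => f x + g x) := by
  constructor
  · intro x
    simp only
    have h1 := abs_add_le (f x) (g x)
    have h2 := hf.1 x
    have h3 := hg.1 x
    linarith
  · intro x y
    simp only
    have e : f x + g x - (f y + g y) = (f x - f y) + (g x - g y) := by ring
    rw [e]
    have h1 := abs_add_le (f x - f y) (g x - g y)
    have h2 := hf.2 x y
    have h3 := hg.2 x y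
    linarith

private theorem BL.sub {K L : ℝ} {f g : ℝ → ℝ} (hf : BL K f) (hg : BL L g) : BL (K + L) (fun x => f x - g x) := by
  constructor
  · intro x
    simp only
    have h1 := abs_sub (f x) (g x)
    have h2 := hf.1 x
    have h3 := hg.1 x
    linarith
  · intro x y
    simp only
    have e : f x - g x - (f y - g y) = (f x - f y) - (g x - g y) := by ring
    rw [e]
    have h1 := abs_sub (f x - f y) (g x - g y)
    have h2 := hf.2 x y
    have h3 := hg.2 x y
    linarith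

private theorem lip_of_deriv {K : ℝ} {f : ℝ → ℝ} (hf : Differentiable ℝ f) (h1 : ∀ x, |deriv f x| ≤ K) (x y : ℝ) :
    |f x - f y| ≤ K * |x - y| := by
  have := Convex.norm_image_sub_le_of_norm_deriv_le (f := f) (C := K) (s := Set.univ) (fun z _ => hf z)
    (fun z _ => by rw [Real.norm_eq_abs]; exact h1 z) convex_univ (Set.mem_univ y) (Set.mem_univ x)
  simpa [Real.norm_eq_abs] using this

private theorem BL.of_deriv {K : ℝ} {f : ℝ → ℝ} (hf : Differentiable ℝ f) (h0 : ∀ x, |f x| ≤ K) (h1 : ∀ x, |deriv f x| ≤ K) :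
    BL K f := ⟨h0, lip_of_deriv hf h1⟩

/-! ## the invariant of a function `g` -/

private theorem core1 {K c : ℝ} (hK : 1 ≤ K) (hc : 0 < c) : ∃ B : ℝ, 1 ≤ B ∧ ∀ g : ℝ → ℝ, ContDiff ℝ 4 g → (∀ x, c ≤ g x) →
    (∀ x, |g x| ≤ K) → (∀ x, |deriv g x| ≤ K) → (∀ x, |deriv (deriv g) x| ≤ K) → (∀ x, |deriv (deriv (deriv g)) x| ≤ K) →
    (∀ x, |deriv (deriv (deriv (deriv g))) x| ≤ K) →
    (∀ x y, |g x - g y| ≤ B * |x - y|) ∧ (∀ x y, |deriv g x / (3 * g x) - deriv g y / (3 * g y)| ≤ B * |x - y|) ∧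
    ∃ k : ℝ → ℝ, Differentiable ℝ k ∧ (∀ x, k x = (deriv g x / (3 * g x)) ^ 2 - (deriv (deriv g) x - 3 * g x) / (12 * g x)) ∧
      (∀ x, |deriv k x| ≤ B) ∧ (∀ x y, |deriv k x - deriv k y| ≤ B * |x - y|) ∧
      ∀ x, |9 * g x ^ 2 + 4 * deriv g x ^ 2 - 3 * g x * deriv (deriv g) x| +
        |18 * g x * deriv g x + 5 * deriv g x * deriv (deriv g) x - 3 * g x * deriv (deriv (deriv g)) x| ≤ B * (|k x| + |deriv k x|) := by
  obtain ⟨L, hL⟩ : ∃ L : ℝ, L = K + 1 / c + K / c ^ 2 := ⟨_, rfl⟩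
  have hc1 : 0 < 1 / c := by positivity
  have hc2 : 0 < K / c ^ 2 := by positivity
  have hKL : K ≤ L := by linarith
  have hL1 : 1 ≤ L := by linarith
  have hp : ∀ n : ℕ, n ≤ 6 → L ^ n ≤ L ^ 6 := fun n hn => pow_le_pow_right₀ hL1 hn
  have hp6 : 1 ≤ L ^ 6 := one_le_pow₀ hL1
  refine ⟨108 * L ^ 6, by linarith, ?_⟩
  intro g hg hlo b0 b1 b2 b3 b4
  have g3 : ContDiff ℝ 3 (deriv g) := ((contDiff_succ_iff_deriv (n := 3)).1 hg).2.2
  have g2 : ContDiff ℝ 2 (deriv (deriv g)) := ((contDiff_succ_iff_deriv (n := 2)).1 g3).2.2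
  have g1 : ContDiff ℝ 1 (deriv (deriv (deriv g))) := ((contDiff_succ_iff_deriv (n := 1)).1 g2).2.2
  have d0 : Differentiable ℝ g := hg.differentiable (by norm_num)
  have d1 : Differentiable ℝ (deriv g) := g3.differentiable (by norm_num)
  have d2 : Differentiable ℝ (deriv (deriv g)) := g2.differentiable (by norm_num)
  have d3 : Differentiable ℝ (deriv (deriv (deriv g))) := g1.differentiable (by norm_num)
  have hpos : ∀ x, 0 < g x := fun x => hc.trans_le (hlo x)
  have hne : ∀ x, g x ≠ 0 := fun x => (hpos x).ne'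
  -- the variables
  have l0 : BL L g := (BL.of_deriv d0 b0 b1).mono hKL
  have l1 : BL L (deriv g) := (BL.of_deriv d1 b1 b2).mono hKL
  have l2 : BL L (deriv (deriv g)) := (BL.of_deriv d2 b2 b3).mono hKL
  have l3 : BL L (deriv (deriv (deriv g))) := (BL.of_deriv d3 b3 b4).mono hKL
  have hu : ∀ x, HasDerivAt (fun x => (g x)⁻¹) (-deriv g x / g x ^ 2) x := fun x => (d0 x).hasDerivAt.inv (hne x)
  have lu : BL L (fun x => (g x)⁻¹) := by
    refine BL.of_deriv (fun x => (hu x).differentiableAt) ?_ ?_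
    · intro x
      rw [abs_of_pos (inv_pos.2 (hpos x))]
      have h1 : (g x)⁻¹ ≤ c⁻¹ := inv_anti₀ hc (hlo x)
      rw [inv_eq_one_div c] at h1
      linarith
    · intro x
      rw [(hu x).deriv, abs_div, abs_neg, abs_of_pos (pow_pos (hpos x) 2)]
      have h1 : |deriv g x| / g x ^ 2 ≤ K / c ^ 2 := div_le_div₀ (by linarith) (b1 x) (by positivity)
        (pow_le_pow_left₀ hc.le (hlo x) 2)
      linarith
  -- the function and its derivative
  obtain ⟨k, hk⟩ : ∃ k : ℝ → ℝ, k = fun x => (1 / 9) * (deriv g x * (g x)⁻¹) ^ 2 - (1 / 12) * (deriv (deriv g) x * (g x)⁻¹) + 1 / 4 := ⟨_, rfl⟩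
  have hkd : ∀ x, HasDerivAt k ((2 / 9) * (((deriv g x * deriv (deriv g) x) * (g x)⁻¹) * (g x)⁻¹) -
      (2 / 9) * (((deriv g x * (g x)⁻¹) * (deriv g x * (g x)⁻¹)) * (deriv g x * (g x)⁻¹)) -
      (1 / 12) * (deriv (deriv (deriv g)) x * (g x)⁻¹) + (1 / 12) * (((deriv g x * deriv (deriv g) x) * (g x)⁻¹) * (g x)⁻¹)) x := by
    intro x
    have h1 := (d1 x).hasDerivAt
    have h2 := (d2 x).hasDerivAt
    have h3 := ((h1.mul (hu x)).pow 2).const_mul (1 / 9 : ℝ)
    have h4 := (h2.mul (hu x)).const_mul (1 / 12 : ℝ)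
    have h5 := (h3.sub h4).add_const (1 / 4 : ℝ)
    rw [hk]
    refine h5.congr_deriv ?_
    have := hne x
    simp only [Pi.mul_apply]
    push_cast
    field_simp
    ring
  have hkd' : deriv k = fun x => (2 / 9) * (((deriv g x * deriv (deriv g) x) * (g x)⁻¹) * (g x)⁻¹) -
      (2 / 9) * (((deriv g x * (g x)⁻¹) * (deriv g x * (g x)⁻¹)) * (deriv g x * (g x)⁻¹)) -
      (1 / 12) * (deriv (deriv (deriv g)) x * (g x)⁻¹) + (1 / 12) * (((deriv g x * deriv (deriv g) x) * (g x)⁻¹) * (g x)⁻¹) :=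
    funext fun x => (hkd x).deriv
  have t1 := ((l1.mul l2).mul lu).mul lu
  have t2 := ((l1.mul lu).mul (l1.mul lu)).mul (l1.mul lu)
  have t3 := l3.mul lu
  have hkl : BL (108 * L ^ 6) (deriv k) := by
    rw [hkd']
    refine ((((t1.cmul (by norm_num : (0 : ℝ) ≤ 2 / 9)).sub (t2.cmul (by norm_num : (0 : ℝ) ≤ 2 / 9))).sub
      (t3.cmul (by norm_num : (0 : ℝ) ≤ 1 / 12))).add (t1.cmul (by norm_num : (0 : ℝ) ≤ 1 / 12))).mono ?_
    have q2 := hp 2 (by norm_num)
    have q4 := hp 4 (by norm_num)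
    nlinarith
  have kx : ∀ x, k x = (deriv g x / (3 * g x)) ^ 2 - (deriv (deriv g) x - 3 * g x) / (12 * g x) := by
    intro x
    have := hne x
    rw [hk]
    simp only
    field_simp
    ring
  refine ⟨fun x y => (l0.2 x y).trans (mul_le_mul_of_nonneg_right ?_ (abs_nonneg _)), ?_, k, fun x => (hkd x).differentiableAt, kx,
    hkl.1, hkl.2, ?_⟩
  · have := hp 1 (by norm_num)
    rw [pow_one] at this
    linarith
  · have h1 := ((l1.mul lu).cmul (by norm_num : (0 : ℝ) ≤ 1 / 3)).mono (L := 108 * L ^ 6) (by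
      have := hp 2 (by norm_num)
      nlinarith)
    intro x y
    have h2 := h1.2 x y
    have e : ∀ x, deriv g x / (3 * g x) = 1 / 3 * (deriv g x * (g x)⁻¹) := by
      intro x
      have := hne x
      field_simp
    rw [e x, e y]
    exact h2
  · intro x
    have hgx := hne x
    have e1 : 9 * g x ^ 2 + 4 * deriv g x ^ 2 - 3 * g x * deriv (deriv g) x = 36 * g x ^ 2 * k x := by
      rw [kx]
      field_simp
      ring
    have e2 : 18 * g x * deriv g x + 5 * deriv g x * deriv (deriv g) x - 3 * g x * deriv (deriv (deriv g)) x =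
        72 * (g x * deriv g x) * k x + 36 * g x ^ 2 * deriv k x := by
      rw [kx, hkd']
      simp only
      field_simp
      ring
    rw [e1, e2]
    have a1 : |g x| ≤ L := l0.1 x
    have a2 : |deriv g x| ≤ L := l1.1 x
    have a3 : g x ^ 2 ≤ L ^ 2 := by
      rw [← sq_abs]
      exact pow_le_pow_left₀ (abs_nonneg _) a1 2
    have a4 : |g x * deriv g x| ≤ L ^ 2 := by
      rw [abs_mul, sq]
      exact mul_le_mul a1 a2 (abs_nonneg _) (by linarith)
    have s1 : |36 * g x ^ 2 * k x| ≤ 36 * L ^ 2 * |k x| := by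
      rw [abs_mul, abs_of_nonneg (by positivity : (0 : ℝ) ≤ 36 * g x ^ 2)]
      exact mul_le_mul_of_nonneg_right (by linarith) (abs_nonneg _)
    have s2 : |72 * (g x * deriv g x) * k x| ≤ 72 * L ^ 2 * |k x| := by
      rw [abs_mul, abs_mul, abs_of_pos (by norm_num : (0 : ℝ) < 72)]
      exact mul_le_mul_of_nonneg_right (by linarith) (abs_nonneg _)
    have s3 : |36 * g x ^ 2 * deriv k x| ≤ 36 * L ^ 2 * |deriv k x| := by
      rw [abs_mul, abs_of_nonneg (by positivity : (0 : ℝ) ≤ 36 * g x ^ 2)]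
      exact mul_le_mul_of_nonneg_right (by linarith) (abs_nonneg _)
    have s4 := abs_add_le (72 * (g x * deriv g x) * k x) (36 * g x ^ 2 * deriv k x)
    have q2 := hp 2 (by norm_num)
    have w1 := abs_nonneg (k x)
    have w2 := abs_nonneg (deriv k x)
    have w3 := mul_le_mul_of_nonneg_right q2 w1
    have w4 := mul_le_mul_of_nonneg_right q2 w2
    have w5 : 0 ≤ L ^ 2 * |deriv k x| := by positivity
    nlinarith

/-! ## the slices -/

private theorem slice79 {γ : ℝ → ℝ} (hγ : Function.Periodic γ (2 * π)) (θ : ℝ) :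
    sl (hom γ) θ = oph (fun t => γ (t + θ)) 0 true := by
  funext τ
  have hs : 0 < sqrt (1 + τ ^ 2) := sqrt_pos.2 (by positivity)
  have hs2 : sqrt (1 + τ ^ 2) ^ 2 = 1 + τ ^ 2 := sq_sqrt (by positivity)
  have hc : cos (arctan τ) = 1 / sqrt (1 + τ ^ 2) := Real.cos_arctan τ
  have hsn : sin (arctan τ) = τ / sqrt (1 + τ ^ 2) := Real.sin_arctan τ
  have e1 : cos θ - τ * sin θ = sqrt (1 + τ ^ 2) * cos (θ + arctan τ) := by
    rw [Real.cos_add, hc, hsn]
    field_simp
  have e2 : sin θ + τ * cos θ = sqrt (1 + τ ^ 2) * sin (θ + arctan τ) := by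
    rw [Real.sin_add, hc, hsn]
    field_simp
  have h1 : γ (tr (cos θ - τ * sin θ, sin θ + τ * cos θ)) = γ (θ + arctan τ) := tr_angle hs e1 e2 hγ
  have h2 : nr (cos θ - τ * sin θ, sin θ + τ * cos θ) = sqrt (1 + τ ^ 2) := by
    rw [nr_eq]
    simp only
    congr 1
    have := Real.sin_sq_add_cos_sq θ
    linear_combination (1 + τ ^ 2) * this
  unfold sl hom oph oan
  rw [h1, h2]
  simp only [if_true, Nat.cast_zero, zero_mul, zero_add]
  rw [add_comm θ]

/-- the fifth derivative as a linear form in the derivatives of the radius of curvature -/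
private noncomputable def L5 (x R0 R1 R2 R3 : ℝ) : ℝ :=
  -(7 * x) * qq x ^ 9 * (R2 - 8 * x * R1 + (12 * x ^ 2 - 3) * R0) +
    qq x ^ 7 * (qq x ^ 2 * R3 - 8 * R1 - 8 * x * qq x ^ 2 * R2 + 24 * x * R0 + (12 * x ^ 2 - 3) * (qq x ^ 2) * R1)

private theorem L5_bd {x K R0 R1 R2 R3 : ℝ} (hx : |x| ≤ 1) (G0 : |R0| ≤ K) (G1 : |R1| ≤ K) (G2 : |R2| ≤ K) (G3 : |R3| ≤ K) :
    |L5 x R0 R1 R2 R3| ≤ 200 * K := by
  have hK : 0 ≤ K := (abs_nonneg _).trans G0
  have hx2 : x ^ 2 ≤ 1 := by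
    rw [← sq_abs]
    exact pow_le_one₀ (abs_nonneg _) hx
  have hx0 : (0 : ℝ) ≤ x ^ 2 := sq_nonneg x
  have qn : ∀ n : ℕ, qq x ^ n ≤ 1 := fun n => pow_le_one₀ (qq_pos x).le (qq_le x)
  have qa : ∀ n : ℕ, |qq x ^ n| ≤ 1 := fun n => by
    rw [abs_of_nonneg (pow_nonneg (qq_pos x).le n)]
    exact qn n
  have mb : ∀ (a b A B : ℝ), |a| ≤ A → |b| ≤ B → |a * b| ≤ A * B := by
    intro a b A B ha hb
    rw [abs_mul]
    exact mul_le_mul ha hb (abs_nonneg _) ((abs_nonneg _).trans ha)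
  have h12 : |12 * x ^ 2 - 3| ≤ 9 := by
    rw [abs_le]
    constructor <;> linarith
  have h8x : |8 * x| ≤ 8 := by
    rw [abs_mul, abs_of_pos (by norm_num : (0 : ℝ) < 8)]
    linarith
  have hE : |R2 - 8 * x * R1 + (12 * x ^ 2 - 3) * R0| ≤ 18 * K := by
    have h1 := mb _ _ _ _ h8x G1
    have h2 := mb _ _ _ _ h12 G0
    have h3 := abs_sub R2 (8 * x * R1)
    have h4 := abs_add_le (R2 - 8 * x * R1) ((12 * x ^ 2 - 3) * R0)
    linarith
  have hA : |-(7 * x) * qq x ^ 9 * (R2 - 8 * x * R1 + (12 * x ^ 2 - 3) * R0)| ≤ 126 * K := by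
    have h1 : |-(7 * x)| ≤ 7 := by
      rw [abs_neg, abs_mul, abs_of_pos (by norm_num : (0 : ℝ) < 7)]
      linarith
    have h2 := mb _ _ _ _ (mb _ _ _ _ h1 (qa 9)) hE
    linarith
  have hB : |qq x ^ 7 * (qq x ^ 2 * R3 - 8 * R1 - 8 * x * qq x ^ 2 * R2 + 24 * x * R0 + (12 * x ^ 2 - 3) * (qq x ^ 2) * R1)| ≤ 50 * K := by
    have t1 := mb _ _ _ _ (qa 2) G3
    have t2 : |8 * R1| ≤ 8 * K := by
      rw [abs_mul, abs_of_pos (by norm_num : (0 : ℝ) < 8)]
      linarith
    have t3 : |8 * x * qq x ^ 2 * R2| ≤ 8 * K := by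
      have := mb _ _ _ _ (mb _ _ _ _ h8x (qa 2)) G2
      linarith
    have t4 : |24 * x * R0| ≤ 24 * K := by
      have h1 : |24 * x| ≤ 24 := by
        rw [abs_mul, abs_of_pos (by norm_num : (0 : ℝ) < 24)]
        linarith
      have := mb _ _ _ _ h1 G0
      linarith
    have t5 := mb _ _ _ _ (mb _ _ _ _ h12 (qa 2)) G1
    have s1 := abs_sub (qq x ^ 2 * R3) (8 * R1)
    have s2 := abs_sub (qq x ^ 2 * R3 - 8 * R1) (8 * x * qq x ^ 2 * R2)
    have s3 := abs_add_le (qq x ^ 2 * R3 - 8 * R1 - 8 * x * qq x ^ 2 * R2) (24 * x * R0)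
    have s4 := abs_add_le (qq x ^ 2 * R3 - 8 * R1 - 8 * x * qq x ^ 2 * R2 + 24 * x * R0) ((12 * x ^ 2 - 3) * (qq x ^ 2) * R1)
    have s5 : |qq x ^ 2 * R3 - 8 * R1 - 8 * x * qq x ^ 2 * R2 + 24 * x * R0 + (12 * x ^ 2 - 3) * (qq x ^ 2) * R1| ≤ 50 * K := by linarith
    have := mb _ _ _ _ (qa 7) s5
    linarith
  have := abs_add_le (-(7 * x) * qq x ^ 9 * (R2 - 8 * x * R1 + (12 * x ^ 2 - 3) * R0))
    (qq x ^ 7 * (qq x ^ 2 * R3 - 8 * R1 - 8 * x * qq x ^ 2 * R2 + 24 * x * R0 + (12 * x ^ 2 - 3) * (qq x ^ 2) * R1))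
  unfold L5
  linarith

private theorem L5_sub (x R0 R1 R2 R3 S0 S1 S2 S3 : ℝ) :
    L5 x R0 R1 R2 R3 - L5 x S0 S1 S2 S3 = L5 x (R0 - S0) (R1 - S1) (R2 - S2) (R3 - S3) := by
  unfold L5
  ring

private theorem oph_d5' {γ : ℝ → ℝ} (hγ : ContDiff ℝ 5 γ) (x : ℝ) :
    deriv (deriv (deriv (deriv (deriv (oph γ 0 true))))) x =
      L5 x (rho γ (oan 0 true x)) (deriv (rho γ) (oan 0 true x)) (deriv (deriv (rho γ)) (oan 0 true x))
        (deriv (deriv (deriv (rho γ))) (oan 0 true x)) := by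
  have h4γ : ContDiff ℝ 4 γ := hγ.of_le (by norm_num)
  have hd1 : ContDiff ℝ 4 (deriv γ) := ((contDiff_succ_iff_deriv (n := 4)).1 hγ).2.2
  have hd2 : ContDiff ℝ 3 (deriv (deriv γ)) := ((contDiff_succ_iff_deriv (n := 3)).1 hd1).2.2
  have hg : ContDiff ℝ 3 (rho γ) := (hγ.of_le (by norm_num)).add hd2
  have hgd : Differentiable ℝ (rho γ) := hg.differentiable (by norm_num)
  have hg1 : ContDiff ℝ 2 (deriv (rho γ)) := ((contDiff_succ_iff_deriv (n := 2)).1 hg).2.2
  have hgd1 : Differentiable ℝ (deriv (rho γ)) := hg1.differentiable (by norm_num)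
  have hg2 : ContDiff ℝ 1 (deriv (deriv (rho γ))) := ((contDiff_succ_iff_deriv (n := 1)).1 hg1).2.2
  have hgd2 : Differentiable ℝ (deriv (deriv (rho γ))) := hg2.differentiable (by norm_num)
  have hsg : sg true = 1 := by
    unfold sg
    simp
  rw [oph_d4 h4γ]
  have h1 := (hgd (oan 0 true x)).hasDerivAt.comp x (oan_hasDerivAt 0 true x)
  have h2 := (hgd1 (oan 0 true x)).hasDerivAt.comp x (oan_hasDerivAt 0 true x)
  have h3 := (hgd2 (oan 0 true x)).hasDerivAt.comp x (oan_hasDerivAt 0 true x)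
  have h4 : HasDerivAt (fun x : ℝ => 8 * x * sg true) (8 * sg true) x := by
    have := ((hasDerivAt_id x).const_mul 8).mul_const (sg true)
    simpa using this
  have h5 : HasDerivAt (fun x : ℝ => 12 * x ^ 2 - 3) (24 * x) x := by
    have := ((hasDerivAt_pow 2 x).const_mul 12).sub_const 3
    refine this.congr_deriv ?_
    push_cast
    ring
  have h6 := (h3.sub (h4.mul h2)).add (h5.mul h1)
  have h7 := ((qq_hasDerivAt x).pow 7).mul h6
  have h8 : HasDerivAt (fun x => qq x ^ 7 * (deriv (deriv (rho γ)) (oan 0 true x) -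
      8 * x * sg true * deriv (rho γ) (oan 0 true x) + (12 * x ^ 2 - 3) * rho γ (oan 0 true x)))
      (((7 : ℕ) : ℝ) * qq x ^ (7 - 1) * (-(x * qq x ^ 3)) *
          (deriv (deriv (rho γ)) (oan 0 true x) - 8 * x * sg true * deriv (rho γ) (oan 0 true x) +
            (12 * x ^ 2 - 3) * rho γ (oan 0 true x)) +
        qq x ^ 7 * (deriv (deriv (deriv (rho γ))) (oan 0 true x) * (sg true * qq x ^ 2) -
          (8 * sg true * deriv (rho γ) (oan 0 true x) + 8 * x * sg true * (deriv (deriv (rho γ)) (oan 0 true x) * (sg true * qq x ^ 2))) +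
          (24 * x * rho γ (oan 0 true x) + (12 * x ^ 2 - 3) * (deriv (rho γ) (oan 0 true x) * (sg true * qq x ^ 2))))) x := h7
  rw [h8.deriv, hsg]
  unfold L5
  push_cast
  ring

/-- the data of the slices of `hom (ga H α)` in terms of `g θ = ρ(θ + α) cos α - ρ'(θ + α) sin α` -/
private theorem sl_data {H g : ℝ → ℝ} (hper : Function.Periodic H (2 * π)) (h6 : ContDiff ℝ 6 H) {α : ℝ}
    (hg : g = fun t => rho H (t + α) * cos α - deriv (rho H) (t + α) * sin α) (θ : ℝ) :
    ContDiff ℝ 5 (sl (hom (ga H α)) θ) ∧ p2 (hom (ga H α)) θ = g θ ∧ p3 (hom (ga H α)) θ = deriv g θ ∧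
      p4 (hom (ga H α)) θ = deriv (deriv g) θ - 3 * g θ ∧
      ∀ x, s5 (hom (ga H α)) θ x = L5 x (g (arctan x + θ)) (deriv g (arctan x + θ)) (deriv (deriv g) (arctan x + θ))
        (deriv (deriv (deriv g)) (arctan x + θ)) := by
  have h5 : ContDiff ℝ 5 H := h6.of_le (by norm_num)
  have k1 : ContDiff ℝ 5 (deriv H) := ((contDiff_succ_iff_deriv (n := 5)).1 h6).2.2
  have hgap : Function.Periodic (ga H α) (2 * π) := by
    intro x
    unfold ga
    have e1 := hper (x + α)
    have e2 := per_deriv hper (x + α)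
    have e3 : x + 2 * π + α = x + α + 2 * π := by ring
    rw [e3, e1, e2]
  have hga : ga H α = gam H α 0 := by
    funext t
    unfold gam
    ring
  have hga5 : ContDiff ℝ 5 (ga H α) := by
    have e1 : ga H α = fun t => H (t + α) * cos α - deriv H (t + α) * sin α := rfl
    rw [e1]
    have ha : ContDiff ℝ 5 (fun t : ℝ => t + α) := by fun_prop
    exact ((h5.comp ha).mul contDiff_const).sub ((k1.comp ha).mul contDiff_const)
  obtain ⟨γ, hγ⟩ : ∃ γ : ℝ → ℝ, γ = fun t => ga H α (t + θ) := ⟨_, rfl⟩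
  have hγ5 : ContDiff ℝ 5 γ := by
    rw [hγ]
    exact hga5.comp (by fun_prop)
  have rg : rho (ga H α) = g := by
    rw [hga, rho_gam h5 α 0, hg]
    funext t
    ring
  have r0 : rho γ = fun t => g (t + θ) := by
    have e1 : deriv γ = fun t => deriv (ga H α) (t + θ) := by
      rw [hγ]
      exact dshift θ
    have e2 : deriv (deriv γ) = fun t => deriv (deriv (ga H α)) (t + θ) := by
      rw [e1]
      exact dshift θ
    funext t
    rw [← rg]
    unfold rho
    rw [e2, hγ]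
  have r1 : deriv (rho γ) = fun t => deriv g (t + θ) := by
    rw [r0]
    exact dshift θ
  have r2 : deriv (deriv (rho γ)) = fun t => deriv (deriv g) (t + θ) := by
    rw [r1]
    exact dshift θ
  have r3 : deriv (deriv (deriv (rho γ))) = fun t => deriv (deriv (deriv g)) (t + θ) := by
    rw [r2]
    exact dshift θ
  have hs : sl (hom (ga H α)) θ = oph γ 0 true := by
    rw [slice79 hgap θ, hγ]
  have hq0 : qq 0 = 1 := by
    unfold qq
    simp
  have ho : oan 0 true 0 = 0 := by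
    unfold oan
    simp
  have hoa : ∀ x, oan 0 true x = arctan x := by
    intro x
    unfold oan
    simp
  have hsgt : sg true = 1 := by
    unfold sg
    simp
  refine ⟨?_, ?_, ?_, ?_, ?_⟩
  · rw [hs]
    exact oph_contDiff hγ5 0 true
  · unfold p2
    rw [hs, oph_d2 (hγ5.of_le (by norm_num))]
    simp only
    rw [hq0, ho, r0]
    simp
  · unfold p3
    rw [hs, oph_d3 (hγ5.of_le (by norm_num))]
    simp only
    rw [hq0, ho, hsgt, r0, ← r0, r1, r0]
    simp
  · unfold p4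
    rw [hs, oph_d4 (hγ5.of_le (by norm_num))]
    simp only
    rw [hq0, ho, hsgt, r2, r0]
    simp
    ring
  · intro x
    unfold s5
    rw [hs, oph_d5' hγ5 x, hoa x, r3, r2, r1, r0]

/-! ## the family -/

private theorem cv_mono79 {c₁ c₁' B B' : ℝ} {p : ℝ → ℝ} (h : Cv c₁ B p) (hc : c₁' ≤ c₁) (hB : B ≤ B') : Cv c₁' B' p :=
  ⟨h.sm, fun τ hτ => hc.trans (h.lo τ hτ), fun τ hτ => (h.d2 τ hτ).trans hB, fun τ hτ => (h.d3 τ hτ).trans hB,
    fun τ hτ => (h.d4 τ hτ).trans hB⟩

/-- the family of phases and weights of an oval whose affine curvature has no double zero -/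
theorem fam_gen {H : ℝ → ℝ} (hH : IsSupp H) (h7 : ContDiff ℝ 7 H) (ha : ∀ t, aff H t ≠ 0 ∨ deriv (aff H) t ≠ 0) :
    ∃ α₀ c₁ B : ℝ, 0 < α₀ ∧ α₀ < π / 2 ∧ 0 < c₁ ∧ c₁ ≤ 1 ∧ 1 ≤ B ∧
      (Continuous fun q : ℝ × (ℝ × ℝ) => Pool.Agent.Helper22.LP.hom (ga H q.1) q.2) ∧
      ∀ α ∈ Icc (-α₀) α₀, HG c₁ B (Pool.Agent.Helper22.LP.hom (ga H α)) ∧ HL B (Pool.Agent.Helper22.LP.hom (ga H α)) ∧
        WL B (wr H α) ∧ WL B (fun _ => 1) := by
  obtain ⟨α₀, c₁, B, hα₀, hα₀', hc₁, hc₁', hB, hcont, hfam⟩ := Pool.Agent.Helper92.LA.fam hH (h7.of_le (by norm_num))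
  have h6 : ContDiff ℝ 6 H := h7.of_le (by norm_num)
  obtain ⟨r, hr⟩ : ∃ r : ℝ → ℝ, r = rho H := ⟨_, rfl⟩
  have k1 : ContDiff ℝ 6 (deriv H) := ((contDiff_succ_iff_deriv (n := 6)).1 h7).2.2
  have k2 : ContDiff ℝ 5 (deriv (deriv H)) := ((contDiff_succ_iff_deriv (n := 5)).1 k1).2.2
  have hr5 : ContDiff ℝ 5 r := by
    rw [hr]
    exact (h7.of_le (by norm_num)).add k2
  have hr4 : ContDiff ℝ 4 (deriv r) := ((contDiff_succ_iff_deriv (n := 4)).1 hr5).2.2
  have hr3 : ContDiff ℝ 3 (deriv (deriv r)) := ((contDiff_succ_iff_deriv (n := 3)).1 hr4).2.2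
  have hr2 : ContDiff ℝ 2 (deriv (deriv (deriv r))) := ((contDiff_succ_iff_deriv (n := 2)).1 hr3).2.2
  have hr1 : ContDiff ℝ 1 (deriv (deriv (deriv (deriv r)))) := ((contDiff_succ_iff_deriv (n := 1)).1 hr2).2.2
  have hr0 : Continuous (deriv (deriv (deriv (deriv (deriv r))))) := hr1.continuous_deriv le_rfl
  have hrp : Function.Periodic r (2 * π) := by
    have hp2 := per_deriv (per_deriv hH.per)
    intro x
    have e1 := hH.per x
    have e2 := hp2 x
    simp only [hr, rho, e1, e2]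
  -- the numerator of the affine curvature
  have haf : aff H = fun t => 9 * r t ^ 2 + 4 * deriv r t ^ 2 - 3 * r t * deriv (deriv r) t := by
    funext t
    unfold aff
    rw [hr]
  have hafd : deriv (aff H) = fun t => 18 * r t * deriv r t + 5 * deriv r t * deriv (deriv r) t - 3 * r t * deriv (deriv (deriv r)) t := by
    funext t
    have z0 := (hr5.differentiable (by norm_num) t).hasDerivAt
    have z1 := (hr4.differentiable (by norm_num) t).hasDerivAt
    have z2 := (hr3.differentiable (by norm_num) t).hasDerivAt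
    have z3 := (((z0.pow 2).const_mul 9).add ((z1.pow 2).const_mul 4)).sub ((z0.const_mul 3).mul z2)
    have z4 : HasDerivAt (aff H) (18 * r t * deriv r t + 5 * deriv r t * deriv (deriv r) t - 3 * r t * deriv (deriv (deriv r)) t) t := by
      rw [haf]
      refine z3.congr_deriv ?_
      push_cast
      ring
    exact z4.deriv
  have ha' : ∀ t, 0 < |9 * r t ^ 2 + 4 * deriv r t ^ 2 - 3 * r t * deriv (deriv r) t| +
      |18 * r t * deriv r t + 5 * deriv r t * deriv (deriv r) t - 3 * r t * deriv (deriv (deriv r)) t| := by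
    intro t
    have h := ha t
    rw [hafd, haf] at h
    rcases h with h | h
    · have h1 := abs_pos.2 h
      have h2 := abs_nonneg (18 * r t * deriv r t + 5 * deriv r t * deriv (deriv r) t - 3 * r t * deriv (deriv (deriv r)) t)
      linarith
    · have h1 := abs_pos.2 h
      have h2 := abs_nonneg (9 * r t ^ 2 + 4 * deriv r t ^ 2 - 3 * r t * deriv (deriv r) t)
      linarith
  obtain ⟨q, hq, hqr⟩ := per_min (f := fun t => |9 * r t ^ 2 + 4 * deriv r t ^ 2 - 3 * r t * deriv (deriv r) t| +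
      |18 * r t * deriv r t + 5 * deriv r t * deriv (deriv r) t - 3 * r t * deriv (deriv (deriv r)) t|)
    (by
      intro x
      have e1 := hrp x
      have e2 := per_deriv hrp x
      have e3 := per_deriv (per_deriv hrp) x
      have e4 := per_deriv (per_deriv (per_deriv hrp)) x
      simp only [e1, e2, e3, e4])
    (by
      have c0 := hr5.continuous
      have c1 := hr4.continuous
      have c2 := hr3.continuous
      have c3 := hr2.continuous
      fun_prop) ha'
  obtain ⟨M0, hM00, hM0⟩ := per_bdd hrp hr5.continuous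
  obtain ⟨M1, hM10, hM1⟩ := per_bdd (per_deriv hrp) hr4.continuous
  obtain ⟨M2, hM20, hM2⟩ := per_bdd (per_deriv (per_deriv hrp)) hr3.continuous
  obtain ⟨M3, hM30, hM3⟩ := per_bdd (per_deriv (per_deriv (per_deriv hrp))) hr2.continuous
  obtain ⟨M4, hM40, hM4⟩ := per_bdd (per_deriv (per_deriv (per_deriv (per_deriv hrp)))) hr1.continuous
  obtain ⟨M5, hM50, hM5⟩ := per_bdd (per_deriv (per_deriv (per_deriv (per_deriv (per_deriv hrp))))) hr0
  obtain ⟨M, hMd⟩ : ∃ M : ℝ, M = M0 + M1 + M2 + M3 + M4 + M5 + 1 := ⟨_, rfl⟩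
  have hM' : 1 ≤ M := by linarith
  have b0 : ∀ x, |r x| ≤ M := fun x => (hM0 x).trans (by linarith)
  have b1 : ∀ x, |deriv r x| ≤ M := fun x => (hM1 x).trans (by linarith)
  have b2 : ∀ x, |deriv (deriv r) x| ≤ M := fun x => (hM2 x).trans (by linarith)
  have b3 : ∀ x, |deriv (deriv (deriv r)) x| ≤ M := fun x => (hM3 x).trans (by linarith)
  have b4 : ∀ x, |deriv (deriv (deriv (deriv r))) x| ≤ M := fun x => (hM4 x).trans (by linarith)
  have b5 : ∀ x, |deriv (deriv (deriv (deriv (deriv r)))) x| ≤ M := fun x => (hM5 x).trans (by linarith)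
  obtain ⟨B₁, hB₁, hcore⟩ := core1 (K := 2 * M) (c := c₁) (by linarith) hc₁
  have hBB : B ≤ B + B₁ + 400 * M := by linarith
  refine ⟨min α₀ (min 1 (q / (504 * M ^ 2))), min c₁ (q / (2 * B₁)), B + B₁ + 400 * M,
    lt_min hα₀ (lt_min one_pos (by positivity)), (min_le_left _ _).trans_lt hα₀', lt_min hc₁ (by positivity),
    (min_le_left _ _).trans hc₁', by linarith, hcont, ?_⟩
  intro α hα
  have hα' : |α| ≤ min α₀ (min 1 (q / (504 * M ^ 2))) := abs_le.2 hα
  have hα0 : α ∈ Icc (-α₀) α₀ := abs_le.1 (hα'.trans (min_le_left _ _))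
  have hα1 : |α| ≤ 1 := hα'.trans ((min_le_right _ _).trans (min_le_left _ _))
  have hα2 : |α| ≤ q / (504 * M ^ 2) := hα'.trans ((min_le_right _ _).trans (min_le_right _ _))
  obtain ⟨f1, f2, f3, f4⟩ := hfam α hα0
  -- the function `g`
  obtain ⟨g, hg⟩ : ∃ g : ℝ → ℝ, g = fun t => rho H (t + α) * cos α - deriv (rho H) (t + α) * sin α := ⟨_, rfl⟩
  have hdat := fun θ => sl_data hH.per h6 hg θ
  rw [← hr] at hg
  have e0 : g = fun t => r (t + α) * cos α - deriv r (t + α) * sin α + 0 := by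
    rw [hg]
    funext t
    ring
  have e1 : deriv g = fun t => deriv r (t + α) * cos α - deriv (deriv r) (t + α) * sin α := by
    rw [e0]
    exact dcomb (hr5.of_le (by norm_num)) α _ _ _
  have e2 : deriv (deriv g) = fun t => deriv (deriv r) (t + α) * cos α - deriv (deriv (deriv r)) (t + α) * sin α := by
    rw [e1]
    have := dcomb (hr4.of_le (by norm_num)) α (cos α) (sin α) 0
    simpa using this
  have e3 : deriv (deriv (deriv g)) = fun t => deriv (deriv (deriv r)) (t + α) * cos α -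
      deriv (deriv (deriv (deriv r))) (t + α) * sin α := by
    rw [e2]
    have := dcomb (hr3.of_le (by norm_num)) α (cos α) (sin α) 0
    simpa using this
  have e4 : deriv (deriv (deriv (deriv g))) = fun t => deriv (deriv (deriv (deriv r))) (t + α) * cos α -
      deriv (deriv (deriv (deriv (deriv r)))) (t + α) * sin α := by
    rw [e3]
    have := dcomb hr2 α (cos α) (sin α) 0
    simpa using this
  have hg4 : ContDiff ℝ 4 g := by
    rw [hg]
    have ha : ContDiff ℝ 4 (fun t : ℝ => t + α) := by fun_prop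
    exact (((hr5.of_le (by norm_num)).comp ha).mul contDiff_const).sub ((hr4.comp ha).mul contDiff_const)
  have hcos1 : |cos α| ≤ 1 := Real.abs_cos_le_one α
  have hsin1 : |sin α| ≤ 1 := Real.abs_sin_le_one α
  have hsin2 : |sin α| ≤ |α| := Real.abs_sin_le_abs
  have hcos2 : |cos α - 1| ≤ |α| := by
    have h := Real.one_sub_sq_div_two_le_cos (x := α)
    have h1 := Real.cos_le_one α
    have h2 : α ^ 2 ≤ |α| := by
      rw [← sq_abs]
      nlinarith [abs_nonneg α]
    have h3 := abs_nonneg α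
    rw [abs_le]
    constructor
    · nlinarith
    · linarith
  have hab : ∀ a b : ℝ, |a| ≤ M → |b| ≤ M → |a * cos α - b * sin α| ≤ 2 * M := by
    intro a b ha hb
    have h1 : |a * cos α| ≤ M := by
      rw [abs_mul]
      calc |a| * |cos α| ≤ M * 1 := mul_le_mul ha hcos1 (abs_nonneg _) (by linarith)
        _ = M := mul_one M
    have h2 : |b * sin α| ≤ M := by
      rw [abs_mul]
      calc |b| * |sin α| ≤ M * 1 := mul_le_mul hb hsin1 (abs_nonneg _) (by linarith)
        _ = M := mul_one M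
    have := abs_sub (a * cos α) (b * sin α)
    linarith
  have hdf : ∀ a b : ℝ, |a| ≤ M → |b| ≤ M → |(a * cos α - b * sin α) - a| ≤ 2 * M * |α| := by
    intro a b ha hb
    have h1 : |a * (cos α - 1)| ≤ M * |α| := by
      rw [abs_mul]
      exact mul_le_mul ha hcos2 (abs_nonneg _) (by linarith)
    have h2 : |b * sin α| ≤ M * |α| := by
      rw [abs_mul]
      exact mul_le_mul hb hsin2 (abs_nonneg _) (by linarith)
    have h3 := abs_sub (a * (cos α - 1)) (b * sin α)
    have h4 : (a * cos α - b * sin α) - a = a * (cos α - 1) - b * sin α := by ring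
    rw [h4]
    linarith
  have g0 : ∀ t, |g t| ≤ 2 * M := by
    intro t
    rw [hg]
    exact hab _ _ (b0 _) (b1 _)
  have g1 : ∀ t, |deriv g t| ≤ 2 * M := by
    intro t
    rw [e1]
    exact hab _ _ (b1 _) (b2 _)
  have g2 : ∀ t, |deriv (deriv g) t| ≤ 2 * M := by
    intro t
    rw [e2]
    exact hab _ _ (b2 _) (b3 _)
  have g3 : ∀ t, |deriv (deriv (deriv g)) t| ≤ 2 * M := by
    intro t
    rw [e3]
    exact hab _ _ (b3 _) (b4 _)
  have g4 : ∀ t, |deriv (deriv (deriv (deriv g))) t| ≤ 2 * M := by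
    intro t
    rw [e4]
    exact hab _ _ (b4 _) (b5 _)
  have hlo : ∀ θ, c₁ ≤ g θ := by
    intro θ
    have h1 := (f1.cv θ).lo 0 (by simp)
    have h2 := (hdat θ).2.1
    unfold p2 at h2
    rw [h2] at h1
    exact h1
  have g4' : ContDiff ℝ 3 (deriv g) := ((contDiff_succ_iff_deriv (n := 3)).1 hg4).2.2
  have g3' : ContDiff ℝ 2 (deriv (deriv g)) := ((contDiff_succ_iff_deriv (n := 2)).1 g4').2.2
  have g2' : ContDiff ℝ 1 (deriv (deriv (deriv g))) := ((contDiff_succ_iff_deriv (n := 1)).1 g3').2.2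
  have L0 := lip_of_deriv (hg4.differentiable (by norm_num)) g1
  have L1 := lip_of_deriv (g4'.differentiable (by norm_num)) g2
  have L2 := lip_of_deriv (g3'.differentiable (by norm_num)) g3
  have L3 := lip_of_deriv (g2'.differentiable (by norm_num)) g4
  obtain ⟨c1, c2, k, kd, kx, c3, c4, c5⟩ := hcore g hg4 hlo g0 g1 g2 g3 g4
  have hka : ka (hom (ga H α)) = k := by
    funext θ
    obtain ⟨-, h2, h3, h4, -⟩ := hdat θ
    rw [kx]
    unfold ka be
    rw [h2, h3, h4]
  have hwk : ∀ {a b : ℝ}, a ≤ B₁ * |b| → a ≤ (B + B₁ + 400 * M) * |b| := by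
    intro a b h
    exact h.trans (mul_le_mul_of_nonneg_right (by linarith) (abs_nonneg _))
  refine ⟨⟨⟨f1.cont, f1.hom, fun θ => cv_mono79 (f1.cv θ) (min_le_left _ _) hBB⟩, fun θ => (hdat θ).1, ?_, ?_, ?_, ?_, ?_, ?_, ?_, ?_⟩,
    ?_, ?_, ?_⟩
  · intro θ τ hτ
    rw [(hdat θ).2.2.2.2 τ]
    have := L5_bd hτ (g0 (arctan τ + θ)) (g1 (arctan τ + θ)) (g2 (arctan τ + θ)) (g3 (arctan τ + θ))
    linarith
  · intro θ θ' τ hτ
    rw [(hdat θ).2.2.2.2 τ, (hdat θ').2.2.2.2 τ, L5_sub]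
    have ee : ∀ a b : ℝ, |a + θ - (a + θ')| = |θ - θ'| := fun a b => by
      congr 1
      ring
    have y0 := L0 (arctan τ + θ) (arctan τ + θ')
    have y1 := L1 (arctan τ + θ) (arctan τ + θ')
    have y2 := L2 (arctan τ + θ) (arctan τ + θ')
    have y3 := L3 (arctan τ + θ) (arctan τ + θ')
    rw [ee _ 0] at y0 y1 y2 y3
    have h1 := L5_bd hτ y0 y1 y2 y3
    have h2 : 200 * (2 * M * |θ - θ'|) ≤ (B + B₁ + 400 * M) * |θ - θ'| := by
      have := mul_le_mul_of_nonneg_right (by linarith : 400 * M ≤ B + B₁ + 400 * M) (abs_nonneg (θ - θ'))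
      linarith
    exact h1.trans h2
  · intro θ θ'
    rw [(hdat θ).2.1, (hdat θ').2.1]
    exact hwk (c1 θ θ')
  · intro θ θ'
    unfold be
    rw [(hdat θ).2.1, (hdat θ').2.1, (hdat θ).2.2.1, (hdat θ').2.2.1]
    exact hwk (c2 θ θ')
  · rw [hka]
    exact kd
  · intro θ
    rw [hka]
    exact (c3 θ).trans (by linarith)
  · intro θ θ'
    rw [hka]
    exact hwk (c4 θ θ')
  · intro θ
    rw [hka]
    refine (min_le_right _ _).trans ?_
    have h5 := c5 θ
    have G0 := g0 θ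
    have G1 := g1 θ
    have G2 := g2 θ
    have G3 := g3 θ
    have D0 : |g θ - r (θ + α)| ≤ 2 * M * |α| := by
      rw [hg]
      exact hdf _ _ (b0 _) (b1 _)
    have D1 : |deriv g θ - deriv r (θ + α)| ≤ 2 * M * |α| := by
      rw [e1]
      exact hdf _ _ (b1 _) (b2 _)
    have D2 : |deriv (deriv g) θ - deriv (deriv r) (θ + α)| ≤ 2 * M * |α| := by
      rw [e2]
      exact hdf _ _ (b2 _) (b3 _)
    have D3 : |deriv (deriv (deriv g)) θ - deriv (deriv (deriv r)) (θ + α)| ≤ 2 * M * |α| := by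
      rw [e3]
      exact hdf _ _ (b3 _) (b4 _)
    have B0 := b0 (θ + α)
    have B1 := b1 (θ + α)
    have B2 := b2 (θ + α)
    have B3 := b3 (θ + α)
    have hl := hqr (θ + α)
    generalize g θ = a at *
    generalize deriv g θ = b at *
    generalize deriv (deriv g) θ = d at *
    generalize deriv (deriv (deriv g)) θ = e at *
    generalize r (θ + α) = u at *
    generalize deriv r (θ + α) = v at *
    generalize deriv (deriv r) (θ + α) = w at *
    generalize deriv (deriv (deriv r)) (θ + α) = z at *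
    have hα0 := abs_nonneg α
    have mb : ∀ (a b A B : ℝ), |a| ≤ A → |b| ≤ B → |a * b| ≤ A * B := by
      intro a b A B ha hb
      rw [abs_mul]
      exact mul_le_mul ha hb (abs_nonneg _) ((abs_nonneg _).trans ha)
    have pr : ∀ (a b u v : ℝ), |a - u| ≤ 2 * M * |α| → |b - v| ≤ 2 * M * |α| → |b| ≤ 2 * M → |u| ≤ M → |a * b - u * v| ≤ 6 * (M ^ 2 * |α|) := by
      intro a b u v h1 h2 h3 h4
      have e : a * b - u * v = (a - u) * b + u * (b - v) := by ring
      rw [e]
      have s1 := mb _ _ _ _ h1 h3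
      have s2 := mb _ _ _ _ h4 h2
      have s3 := abs_add_le ((a - u) * b) (u * (b - v))
      nlinarith
    have w1 := pr a a u u D0 D0 G0 B0
    have w2 := pr b b v v D1 D1 G1 B1
    have w3 := pr a d u w D0 D2 G2 B0
    have w4 := pr a b u v D0 D1 G1 B0
    have w5 := pr b d v w D1 D2 G2 B1
    have w6 := pr a e u z D0 D3 G3 B0
    have h504 : 504 * (M ^ 2 * |α|) ≤ q := by
      have h1 := mul_le_mul_of_nonneg_left hα2 (by positivity : (0 : ℝ) ≤ 504 * M ^ 2)
      rw [mul_div_cancel₀ _ (by positivity : (504 : ℝ) * M ^ 2 ≠ 0)] at h1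
      linarith
    have x1 : |9 * u ^ 2 + 4 * v ^ 2 - 3 * u * w| ≤ |9 * a ^ 2 + 4 * b ^ 2 - 3 * a * d| + 96 * (M ^ 2 * |α|) := by
      have e : 9 * u ^ 2 + 4 * v ^ 2 - 3 * u * w = (9 * a ^ 2 + 4 * b ^ 2 - 3 * a * d) -
          (9 * (a * a - u * u) + 4 * (b * b - v * v) - 3 * (a * d - u * w)) := by ring
      have y : |9 * (a * a - u * u) + 4 * (b * b - v * v) - 3 * (a * d - u * w)| ≤ 96 * (M ^ 2 * |α|) := by
        rw [abs_le] at w1 w2 w3 ⊢
        constructor <;> linarith [w1.1, w1.2, w2.1, w2.2, w3.1, w3.2]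
      rw [e]
      have := abs_sub (9 * a ^ 2 + 4 * b ^ 2 - 3 * a * d) (9 * (a * a - u * u) + 4 * (b * b - v * v) - 3 * (a * d - u * w))
      linarith
    have x2 : |18 * u * v + 5 * v * w - 3 * u * z| ≤ |18 * a * b + 5 * b * d - 3 * a * e| + 156 * (M ^ 2 * |α|) := by
      have ee : 18 * u * v + 5 * v * w - 3 * u * z = (18 * a * b + 5 * b * d - 3 * a * e) -
          (18 * (a * b - u * v) + 5 * (b * d - v * w) - 3 * (a * e - u * z)) := by ring
      have y : |18 * (a * b - u * v) + 5 * (b * d - v * w) - 3 * (a * e - u * z)| ≤ 156 * (M ^ 2 * |α|) := by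
        rw [abs_le] at w4 w5 w6 ⊢
        constructor <;> linarith [w4.1, w4.2, w5.1, w5.2, w6.1, w6.2]
      rw [ee]
      have := abs_sub (18 * a * b + 5 * b * d - 3 * a * e) (18 * (a * b - u * v) + 5 * (b * d - v * w) - 3 * (a * e - u * z))
      linarith
    rw [div_le_iff₀ (by positivity)]
    nlinarith
  · exact ⟨f2.hom, fun v w h7 h8 h9 h10 => (f2.lip v w h7 h8 h9 h10).trans (mul_le_mul_of_nonneg_right hBB (by positivity))⟩
  · exact ⟨f3.hom, fun v => (f3.bdd v).trans hBB, fun v w h7 h8 => (f3.lip v w h7 h8).trans (mul_le_mul_of_nonneg_right hBB (by positivity))⟩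
  · exact ⟨f4.hom, fun v => (f4.bdd v).trans hBB, fun v w h7 h8 => (f4.lip v w h7 h8).trans (mul_le_mul_of_nonneg_right hBB (by positivity))⟩

end Pool.Agent.Helper92.AG
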